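import Mathlib
import Pool.Agent.Lib.MP_7c08ba_nt.Tw.Final

set_option autoImplicit false

namespace Pool.Agent.Lib.MP_7c08ba_nt.Retired.CanonicalCharactersOne

open NumberField Pool.Agent.Lib.MP_7c08ba_nt

/-- Let `q ≡ 7 (mod 16)` be a prime and `F = ℚ(√-q)`, with its two embeddings `j`, `J` into `ℚ₂`.
Let `D` be a squarefree integer all of whose odd prime divisors are inert in `F`, let `k` be any
integer and let `ρ` be the `2`-adic realisation of the Hecke character
`(t) ↦ (a/q) (D/N(t)) j(t) ^ k J(t) ^ (1 - k)`, `t ≡ a (mod √-q)`. Then the space of continuous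
cohomology classes of `ρ` which are trivial on the inertia groups away from `2` and on the
decomposition group at the place of `J` (no condition at the place of `j`) has dimension at most
`B`, for every `B ≥ b(D)` with `(-1) ^ B = (-1) ^ (k - 1) * sign D`. -/
theorem result (q : ℕ) (hq : q.Prime) (h16 : q % 16 = 7)
    (F : Type) [Field F] [NumberField F] (hF : Module.finrank ℚ F = 2)
    (s : 𝓞 F) (hs : s ^ 2 = -(q : 𝓞 F))
    (D : ℤ) (hD : Squarefree D)
    (hinert : ∀ r : ℕ, r.Prime → r ≠ 2 → (r : ℤ) ∣ D → ¬ IsSquare (((-q : ℤ)) : ZMod r))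
    (k : ℤ) (j J : F →+* ℚ_[2]) (hjJ : j ≠ J)
    (ρ : AbsGal F →* Matrix.GeneralLinearGroup (Fin 1) ℚ_[2]) (hρ : Realises q s D k j J ρ)
    (P₀ : Ideal (AllInt F)) (hP₀ : LiesAt J P₀)
    (B : ℕ) (hB : basicBound D ≤ B)
    (hparity : (-1) ^ B = (-1) ^ (k - 1).natAbs * D.sign) :
    selmerRank ρ P₀ ≤ B :=
  hecke_rank hq h16 hF hs hD hinert hjJ hρ hP₀ hB hparity

end Pool.Agent.Lib.MP_7c08ba_nt.Retired.CanonicalCharactersOne
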