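import Mathlib
import Pool.Agent.Lib.MP_7c08ba_nt.Main

set_option autoImplicit false

namespace Pool.Agent.Lib.MP_7c08ba_nt.Retired.UnipotentModTwo

open NumberField Pool.Agent.Lib.MP_7c08ba_nt

/-- Let `q ≡ 7 (mod 16)` be a prime and `F = ℚ(√-q)`, in which `2` splits; let `j : F → ℚ₂` be one
of the two embeddings and `P₀` a prime above the corresponding place. Let `ρ` be a continuous
residually unipotent representation of the absolute Galois group of `F` over a non-archimedean
field of residue characteristic `2`, ramified away from `2` only over a finite set `T`. Then the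
space of continuous cohomology classes of `ρ` which are trivial on the inertia groups away from `2`
and on the decomposition group of `P₀` (no condition at the other place above `2`) has dimension at
most the sum over `T` of the codimensions of the spaces of inertia invariants; it is zero when `ρ`
is unramified away from `2`. -/
theorem result (q : ℕ) (hq : q.Prime) (h16 : q % 16 = 7)
    (F : Type) [Field F] [NumberField F] (hF : Module.finrank ℚ F = 2)
    (s : F) (hs : s ^ 2 = -(q : F)) (j : F →+* ℚ_[2])
    (L : Type) [NormedField L] [IsUltrametricDist L] (hL : ‖(2 : L)‖ < 1)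
    (n : ℕ) (ρ : AbsGal F →* Matrix.GeneralLinearGroup (Fin n) L) (hρ : Continuous ρ)
    (hres : ResUnipotent ρ) (T : Finset (Ideal (AllInt F))) (hT : RamifiedOver ρ T)
    (P₀ : Ideal (AllInt F)) (hP₀ : LiesAt j P₀) :
    selmerRank ρ P₀ ≤ ((∑ Q ∈ T, inertiaCodim ρ Q : ℕ) : Cardinal) :=
  selmerRank_le hq h16 hF hs j hL hρ hres hT hP₀

end Pool.Agent.Lib.MP_7c08ba_nt.Retired.UnipotentModTwo
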